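import Pool.Agent.AEN.Stmts

/-!
# Squad AEN, row ASL: almost surely `Bd x` and `¬ Bd y` imply `Lm x y`
-/

set_option autoImplicit false

open MeasureTheory ProbabilityTheory Function Filter

open scoped ENNReal BigOperators InnerProductSpace Topology

noncomputable section

namespace Pool.Agent.AEN.H52

open Pool.Agent.Anderson Pool.Agent.Loc Pool.Agent.Helper54.Bal Pool.Agent.AEN

theorem asl0 (hTwo : TwoStmt) (hMea : MeaStmt) (d : ℕ) (ν : Measure ℝ) [IsProbabilityMeasure ν]
    [NullSingletonClass ν] (E : ℝ) (x : Site d) :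
    ∀ᵐ V ∂(PP d ν), Bd V E x → ¬ Bd V E 0 → Lm V E x 0 := by
  classical
  set N : Set (Site d → ℝ) := {V | Bd V E x} ∩ ({V | Bd V E 0}ᶜ ∩ {V | Lm V E x 0}ᶜ) with hN
  have hNm : MeasurableSet N :=
    (hMea d E x 0).1.inter ((hMea d E 0 0).1.compl.inter (hMea d E x 0).2.compl)
  have h0 : PP d ν N = 0 := by
    have hr := (resamp_PP (d := d) ν).map_eq
    rw [← hr, Measure.map_apply measurable_upd hNm,
      Measure.prod_apply (measurable_upd hNm)]
    rw [lintegral_eq_zero_iff (measurable_measure_prodMk_left (measurable_upd hNm))]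
    refine Eventually.of_forall fun V => ?_
    refine Set.Subsingleton.measure_zero ?_ ν
    intro s hs t ht
    have hs' : Function.update V 0 s ∈ N := hs
    have ht' : Function.update V 0 t ∈ N := ht
    by_contra hst
    have h1 := hTwo d (Function.update V 0 s) E x 0 t (by
      rw [Function.update_self]
      exact fun h => hst h.symm) hs'.1 (by
      rw [Function.update_idem]
      exact ht'.1) hs'.2.1
    rw [Function.update_idem] at h1
    exact ht'.2.2 h1
  have h2 : ∀ᵐ V ∂(PP d ν), V ∉ N := measure_eq_zero_iff_ae_notMem.1 h0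
  filter_upwards [h2] with V hV hx hy
  by_contra hl
  exact hV ⟨hx, hy, hl⟩

theorem asl (hTwo : TwoStmt) (hMea : MeaStmt) (hTra : TraStmt) : AslStmt := by
  intro d ν _ _ E
  rw [ae_all_iff]
  intro x
  rw [ae_all_iff]
  intro y
  have h := (shiftInv_PP (d := d) ν y).quasiMeasurePreserving.ae (asl0 hTwo hMea d ν E (x - y))
  filter_upwards [h] with V hV hx hy
  have h1 := (hTra d V E y (x - y) 0).1
  have h2 := (hTra d V E y 0 0).1
  have h3 := (hTra d V E y (x - y) 0).2
  rw [sub_add_cancel] at h1 h3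
  rw [zero_add] at h2 h3
  exact h3.1 (hV (h1.2 hx) (fun hb => hy (h2.1 hb)))

end Pool.Agent.AEN.H52
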